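import Pool.Agent.H1.EOL.X2

/-!
Row EX of board eol.
-/

set_option autoImplicit false
set_option linter.unusedSectionVars false

namespace Pool.Agent.H1.EOL

open Finset Pool.Agent.H82.SVL Pool.Agent.H82.EOL

/-- Sum of indicators over a finset of points. -/
theorem sum_ind_mem {A : Type} [DecidableEq A] (s t : Finset A) :
    ∑ a ∈ s, ind (a ∈ t) ≤ (t.card : ℝ) := by
  classical
  have h1 : ∑ a ∈ s, ind (a ∈ t) = ((s.filter (fun a => a ∈ t)).card : ℝ) := by
    rw [card_filter, Nat.cast_sum]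
    apply sum_congr rfl
    intro a _
    by_cases h : a ∈ t <;> simp [ind, h]
  rw [h1]
  have h2 : s.filter (fun a => a ∈ t) ⊆ t := by
    intro a ha
    exact (mem_filter.mp ha).2
  exact_mod_cast card_le_card h2

theorem card_QA {D X R : Type} [Fintype D] [DecidableEq D] [Fintype X] [DecidableEq X]
    {srt : D → ℕ} {h : Hid srt R} {I : EI D X} {q b K c M : ℕ} (hy : Hyp h I q b K c M)
    (p : R × Om srt) (hp : p ∈ h.Θ) : (QA h I p).card ≤ b + K * (4 * q) := by
  unfold QA
  refine (card_union_le _ _).trans (Nat.add_le_add (hy.hb p hp) ?_)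
  refine (card_biUnion_le_card_mul _ _ (4 * q)
    (fun x _ => Tree.card_qs_le _ (dle_chk hy.bd x))).trans ?_
  exact Nat.mul_le_mul_right _ (hy.hK p hp)

theorem ex_thm (hLT : S_LT) : S_EX := by
  classical
  intro D X R _ _ _ _ srt h I q b K c M E π G Y1 hy hEM hne hlight hGE hG hY1
  by_contra hcon
  push Not at hcon
  have hcpos : 0 < c := by
    rw [hy.hc]; positivity
  have hcR : (0 : ℝ) < c := by exact_mod_cast hcpos
  set N : ℝ := ((Tn h E π).card : ℝ) with hN
  have hNpos : 0 < N := by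
    rw [hN]; exact_mod_cast card_pos.mpr hne
  set B : ℕ := b + K * (4 * q) with hB
  have hTnmem : ∀ p ∈ Tn h E π, p ∈ h.Θ ∧ p.2 ∈ C E π := by
    intro p hp
    exact mem_filter.mp hp
  set H : Finset D := univ.filter (fun y =>
    N < c * ∑ p ∈ Tn h E π, ind (y ∈ (QA h I p \ E).image p.2.1)) with hH
  have hHmem : ∀ y, y ∈ H ↔ N < c * ∑ p ∈ Tn h E π, ind (y ∈ (QA h I p \ E).image p.2.1) := by
    intro y
    rw [hH, mem_filter]
    simp
  -- the size of H
  have hHcard : H.card ≤ c * B := by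
    have e1 : (H.card : ℝ) * N ≤ ∑ y ∈ H,
        (c : ℝ) * ∑ p ∈ Tn h E π, ind (y ∈ (QA h I p \ E).image p.2.1) := by
      rw [← nsmul_eq_mul, ← sum_const]
      exact sum_le_sum (fun y hyH => ((hHmem y).mp hyH).le)
    have e2 : ∑ y ∈ H, (c : ℝ) * ∑ p ∈ Tn h E π, ind (y ∈ (QA h I p \ E).image p.2.1)
        ≤ c * (N * B) := by
      rw [← mul_sum, sum_comm]
      apply mul_le_mul_of_nonneg_left _ hcR.le
      have e3 : ∀ p ∈ Tn h E π, ∑ y ∈ H, ind (y ∈ (QA h I p \ E).image p.2.1) ≤ (B : ℝ) := by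
        intro p hp
        refine (sum_ind_mem _ _).trans ?_
        have e4 : ((QA h I p \ E).image p.2.1).card ≤ B :=
          card_image_le.trans ((card_le_card sdiff_subset).trans
            (card_QA hy p (hTnmem p hp).1))
        exact_mod_cast e4
      refine (sum_le_sum e3).trans (le_of_eq ?_)
      rw [sum_const, nsmul_eq_mul]
    have e5 : (H.card : ℝ) * N ≤ ((c * B : ℕ) : ℝ) * N := by
      push_cast
      calc (H.card : ℝ) * N ≤ c * (N * B) := e1.trans e2
        _ = (c : ℝ) * B * N := by ring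
    exact_mod_cast le_of_mul_le_mul_right e5 hNpos
  -- hypotheses of LT
  have hYH : ∀ a ∈ E, π.1 a ∉ H := by
    intro a ha hmem
    rw [hHmem] at hmem
    have e1 : ∑ p ∈ Tn h E π, ind (π.1 a ∈ (QA h I p \ E).image p.2.1) = 0 := by
      apply sum_eq_zero
      intro p hp
      apply ind_neg
      intro hi
      rw [mem_image] at hi
      obtain ⟨d, hd, hde⟩ := hi
      have e2 : p.2.1 a = π.1 a := mem_C.mp (hTnmem p hp).2 a ha
      rw [← e2] at hde
      have e3 : d = a := p.2.1.injective hde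
      rw [mem_sdiff] at hd
      exact hd.2 (e3 ▸ ha)
    rw [e1, mul_zero] at hmem
    linarith
  have hroom : ∀ a, E.card + 4 * q + (2 * (4 * q) + 1) * H.card + 1 ≤ (fib srt a).card := by
    intro a
    have e1 := hy.room a
    have e2 : (2 * (4 * q) + 1) * H.card ≤ (2 * (4 * q) + 1) * (c * B) :=
      Nat.mul_le_mul_left _ hHcard
    rw [← hB] at e1
    omega
  have hth : ∀ s : ℝ, (c : ℝ) * s ≤ N → s ≤ 1 / (c : ℝ) * N := by
    intro s hs
    rw [one_div, ← div_eq_inv_mul, le_div_iff₀ hcR]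
    linarith
  have hEGs : ∀ p : R × Om srt, h.EG p.1 p.2 ⊆ QA h I p := fun p => subset_union_left
  have hdom : ∀ a, a ∉ E → ∑ p ∈ Tn h E π, ind (a ∈ h.EG p.1 p.2) ≤ 1 / (c : ℝ) * N := by
    intro a ha
    refine (sum_le_sum (fun p _ => ind_mono (fun hh => hEGs p hh))).trans ?_
    exact hth _ (hlight a ha)
  have himg : ∀ y, y ∉ H → ∑ p ∈ Tn h E π, ind (y ∈ (QA h I p \ E).image p.2.1)
      ≤ 1 / (c : ℝ) * N := by
    intro y hyH
    rw [hHmem, not_lt] at hyH
    exact hth _ hyH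
  have himg' : ∀ y, y ∉ H → ∑ p ∈ Tn h E π, ind (y ∈ (h.EG p.1 p.2 \ E).image p.2.1)
      ≤ 1 / (c : ℝ) * N := by
    intro y hyH
    refine (sum_le_sum (fun p _ => ind_mono (fun hh => ?_))).trans (himg y hyH)
    exact image_subset_image (sdiff_subset_sdiff (hEGs p) (Subset.refl _)) hh
  have hsmall : 2 * (4 * (q : ℝ)) * (1 / (c : ℝ)) ≤ 1 / 2 := by
    have e1 : 16 * q ≤ c := by
      rw [hy.hc]
      have e2 : 16 * (4 * q + 1) ≤ 16 * (K + 1) * (b + K * (4 * q) + 1) * (4 * q + 1) := by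
        apply Nat.mul_le_mul_right
        calc 16 = 16 * 1 * 1 := by norm_num
          _ ≤ 16 * (K + 1) * (b + K * (4 * q) + 1) :=
            Nat.mul_le_mul (Nat.mul_le_mul_left _ (by omega)) (by omega)
      omega
    have e3 : (16 : ℝ) * q ≤ c := by exact_mod_cast e1
    rw [mul_one_div, div_le_iff₀ hcR]
    linarith
  have hmain := hLT D X R srt h H I q (1 / (c : ℝ)) E π hy.bd hYH hroom hdom himg' hsmall
  -- number of solutions
  set good : R × Om srt → Prop := fun p => ∃ x, Tree.run p.2.1 (I.chk x) = true ∧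
    Av H E (Tree.qs p.2.1 (I.chk x)) p.2 with hgood
  have hsol : ∀ p ∈ Tn h E π, ∑ x, ind (Tree.run p.2.1 (I.chk x) = true ∧
      Av H E (Tree.qs p.2.1 (I.chk x)) p.2) ≤ K * ind (good p) := by
    intro p hp
    by_cases hg : good p
    · rw [ind_pos hg, mul_one]
      have e1 : ∑ x, ind (Tree.run p.2.1 (I.chk x) = true ∧
          Av H E (Tree.qs p.2.1 (I.chk x)) p.2) ≤ ∑ x ∈ univ, ind (x ∈ I.sols p.2.1) := by
        apply sum_le_sum
        intro x _
        apply ind_mono
        intro hx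
        unfold EI.sols
        rw [mem_filter]
        exact ⟨mem_univ _, hx.1⟩
      refine e1.trans ((sum_ind_mem _ _).trans ?_)
      exact_mod_cast hy.hK p (hTnmem p hp).1
    · rw [ind_neg hg, mul_zero]
      apply le_of_eq
      apply sum_eq_zero
      intro x _
      apply ind_neg
      intro hx
      exact hg ⟨x, hx⟩
  have hbad : ∀ p ∈ Tn h E π, ind (good p) ≤ ∑ a ∈ G, ind (a ∈ QA h I p)
      + ∑ y ∈ Y1 \ H, ind (y ∈ (QA h I p \ E).image p.2.1) := by
    intro p hp
    have n1 : 0 ≤ ∑ a ∈ G, ind (a ∈ QA h I p) := sum_nonneg (fun _ _ => ind_nn _)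
    have n2 : 0 ≤ ∑ y ∈ Y1 \ H, ind (y ∈ (QA h I p \ E).image p.2.1) :=
      sum_nonneg (fun _ _ => ind_nn _)
    by_cases hg : good p
    · obtain ⟨x, hx1, hx2⟩ := hg
      obtain ⟨a, ha1, ha2, ha3⟩ := hcon p hp x hx1
      have hxs : x ∈ I.sols p.2.1 := by
        unfold EI.sols
        rw [mem_filter]
        exact ⟨mem_univ _, hx1⟩
      have haQ : a ∈ QA h I p := by
        unfold QA
        rw [mem_union]
        right
        rw [mem_biUnion]
        exact ⟨x, hxs, ha1⟩
      refine (ind_le1 _).trans ?_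
      by_cases haG : a ∈ G
      · have e1 : ind (a ∈ QA h I p) ≤ ∑ a ∈ G, ind (a ∈ QA h I p) :=
          single_le_sum (f := fun a => ind (a ∈ QA h I p)) (fun _ _ => ind_nn _) haG
        rw [ind_pos haQ] at e1
        linarith
      · have hY : p.2.1 a ∈ Y1 := ha3 haG
        have hYs : p.2.1 a ∈ Y1 \ H := by
          rw [mem_sdiff]
          exact ⟨hY, hx2 a ha1 ha2⟩
        have e1 : ind (p.2.1 a ∈ (QA h I p \ E).image p.2.1)
            ≤ ∑ y ∈ Y1 \ H, ind (y ∈ (QA h I p \ E).image p.2.1) :=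
          single_le_sum (f := fun y => ind (y ∈ (QA h I p \ E).image p.2.1))
            (fun _ _ => ind_nn _) hYs
        rw [ind_pos (mem_image_of_mem _ (mem_sdiff.mpr ⟨haQ, ha2⟩))] at e1
        linarith
    · rw [ind_neg hg]
      linarith
  have hsum : ∑ p ∈ Tn h E π, ind (good p) ≤ (2 * (B : ℝ)) * (1 / (c : ℝ) * N) := by
    refine (sum_le_sum hbad).trans ?_
    rw [sum_add_distrib, sum_comm, sum_comm (t := Y1 \ H)]
    have e1 : ∑ a ∈ G, ∑ p ∈ Tn h E π, ind (a ∈ QA h I p) ≤ (B : ℝ) * (1 / (c : ℝ) * N) := by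
      refine (sum_le_sum (fun a ha => hth _ (hlight a (hGE a ha)))).trans ?_
      rw [sum_const, nsmul_eq_mul]
      apply mul_le_mul_of_nonneg_right _ (by positivity)
      exact_mod_cast hG
    have e2 : ∑ y ∈ Y1 \ H, ∑ p ∈ Tn h E π, ind (y ∈ (QA h I p \ E).image p.2.1)
        ≤ (B : ℝ) * (1 / (c : ℝ) * N) := by
      refine (sum_le_sum (fun y hyy => himg y (mem_sdiff.mp hyy).2)).trans ?_
      rw [sum_const, nsmul_eq_mul]
      apply mul_le_mul_of_nonneg_right _ (by positivity)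
      exact_mod_cast (card_le_card sdiff_subset).trans hY1
    linarith
  have hfin : N ≤ 8 * (K * ((2 * (B : ℝ)) * (1 / (c : ℝ) * N))) := by
    refine hmain.trans ?_
    apply mul_le_mul_of_nonneg_left _ (by norm_num)
    refine (sum_le_sum hsol).trans ?_
    rw [← mul_sum]
    exact mul_le_mul_of_nonneg_left hsum (Nat.cast_nonneg _)
  have hlt : 16 * K * B < c := by
    rw [hy.hc]
    have e1 : 16 * (K + 1) * (B + 1) * 1 ≤ 16 * (K + 1) * (B + 1) * (4 * q + 1) :=
      Nat.mul_le_mul_left _ (by omega)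
    have e2 : 16 * K * B < 16 * (K + 1) * (B + 1) * 1 := by nlinarith
    exact lt_of_lt_of_le e2 e1
  have hltR : 16 * (K : ℝ) * B < c := by exact_mod_cast hlt
  have e3 : 8 * (K * ((2 * (B : ℝ)) * (1 / (c : ℝ) * N))) = (16 * (K : ℝ) * B) / c * N := by
    ring
  rw [e3] at hfin
  have e4 : (16 * (K : ℝ) * B) / c < 1 := by
    rw [div_lt_one hcR]; exact hltR
  nlinarith [mul_lt_mul_of_pos_right e4 hNpos]

end Pool.Agent.H1.EOL
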