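import Pool.Agent.H82.EOL.Stmts

/-!
Row X2 of board eol.
-/

set_option autoImplicit false
set_option linter.unusedSectionVars false

namespace Pool.Agent.H1.EOL

open Finset Pool.Agent.H82.SVL Pool.Agent.H82.EOL

theorem ind_pos {p : Prop} (h : p) : ind p = 1 := by simp [ind, h]

theorem ind_neg {p : Prop} (h : ¬ p) : ind p = 0 := by simp [ind, h]

theorem ind_nn (p : Prop) : 0 ≤ ind p := by
  by_cases h : p
  · rw [ind_pos h]; norm_num
  · rw [ind_neg h]

theorem ind_le1 (p : Prop) : ind p ≤ 1 := by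
  by_cases h : p
  · rw [ind_pos h]
  · rw [ind_neg h]; norm_num

theorem ind_mono {p q : Prop} (h : p → q) : ind p ≤ ind q := by
  by_cases hp : p
  · rw [ind_pos hp, ind_pos (h hp)]
  · rw [ind_neg hp]; exact ind_nn q

section

variable {D X : Type} [DecidableEq X]

theorem dle_To {I : EI D X} {q : ℕ} (h : I.Bd q) (x : X) : Tree.DLe (I.To x) (2 * q) := by
  have h1 : Tree.DLe (I.To x) (q + (q + 0)) :=
    Tree.DLe.bind (h.1 x) (fun v => Tree.DLe.bind (h.2 v) (fun u => Tree.DLe_leaf _ 0))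
  exact h1.mono (by omega)

theorem dle_Ti {I : EI D X} {q : ℕ} (h : I.Bd q) (x : X) : Tree.DLe (I.Ti x) (2 * q) := by
  have h1 : Tree.DLe (I.Ti x) (q + (q + 0)) :=
    Tree.DLe.bind (h.2 x) (fun v => Tree.DLe.bind (h.1 v) (fun u => Tree.DLe_leaf _ 0))
  exact h1.mono (by omega)

theorem dle_chk {I : EI D X} {q : ℕ} (h : I.Bd q) (x : X) : Tree.DLe (I.chk x) (4 * q) := by
  have h1 : Tree.DLe (I.chk x) (2 * q + (2 * q + 0)) :=
    Tree.DLe.bind (dle_To h x) (fun v => Tree.DLe.bind (dle_Ti h x) (fun u => Tree.DLe_leaf _ 0))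
  exact h1.mono (by omega)

theorem run_chk (I : EI D X) (f : D → D) (x : X) :
    Tree.run f (I.chk x) = isol (decide (x = I.x0)) (Tree.run f (I.To x))
      (Tree.run f (I.Ti x)) := by
  unfold EI.chk
  rw [Tree.run_bind, Tree.run_bind, Tree.run_leaf]

theorem qs_chk [DecidableEq D] (I : EI D X) (f : D → D) (x : X) :
    Tree.qs f (I.chk x) = Tree.qs f (I.To x) ∪ Tree.qs f (I.Ti x) := by
  unfold EI.chk
  rw [Tree.qs_bind, Tree.qs_bind, Tree.qs_leaf, union_empty]

/-- The two tests in the other order. -/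
def chk' (I : EI D X) (x : X) : Tree D Bool :=
  (I.Ti x).bind (fun i => (I.To x).bind (fun o => Tree.leaf (isol (decide (x = I.x0)) o i)))

theorem qs_chk' [DecidableEq D] (I : EI D X) (f : D → D) (x : X) :
    Tree.qs f (chk' I x) = Tree.qs f (I.chk x) := by
  rw [qs_chk]
  unfold chk'
  rw [Tree.qs_bind, Tree.qs_bind, Tree.qs_leaf, union_empty, union_comm]

theorem ind_ineq (z o i : Bool) :
    ind (z = true) - 2 * ind (isol z o i = true) ≤ ind (o = true) - ind (i = true) := by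
  cases z <;> cases o <;> cases i <;> simp [isol, ind] <;> norm_num

end

theorem x2_thm (h2 : S_W2) (h3 : S_W3) (h4 : S_W4) (h1 : S_X1) : S_X2 := by
  intro D X _ _ _ _ srt Y I q E π hb hY hroom
  set Wt : Om srt → X → ℝ := fun τ x =>
    ind (Av Y E (Tree.qs τ.1 (I.chk x)) τ) * gw srt Y (E ∪ Tree.qs τ.1 (I.chk x)) with hWt
  have hsmall : ∀ a, E.card + (2 * q + 2 * q) + Y.card < (fib srt a).card := by
    intro a
    have := hroom a
    have h5 : Y.card ≤ (2 * (4 * q) + 1) * Y.card := Nat.le_mul_of_pos_left _ (by omega)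
    omega
  have hsmall4 : ∀ a, E.card + 4 * q + Y.card < (fib srt a).card := by
    intro a
    have := hsmall a
    omega
  have hcard : ∀ (τ : Om srt) (x : X), (Tree.qs τ.1 (I.chk x)).card ≤ 4 * q :=
    fun τ x => Tree.card_qs_le _ (dle_chk hb x)
  have hgE : 0 < gw srt Y E := (h2 D srt Y E ∅ (4 * q) (by simp) hroom).1
  have hgle : ∀ (τ : Om srt) (x : X),
      gw srt Y (E ∪ Tree.qs τ.1 (I.chk x)) ≤ 2 * gw srt Y E :=
    fun τ x => (h2 D srt Y E _ (4 * q) (hcard τ x) hroom).2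
  have hgnn : ∀ (τ : Om srt) (x : X), 0 ≤ gw srt Y (E ∪ Tree.qs τ.1 (I.chk x)) := by
    intro τ x
    refine (h2 D srt Y (E ∪ Tree.qs τ.1 (I.chk x)) ∅ 0 (by simp) ?_).1.le
    intro a
    have e1 := card_union_le E (Tree.qs τ.1 (I.chk x))
    have e2 := hcard τ x
    have e3 := hsmall4 a
    omega
  have hWnn : ∀ τ x, 0 ≤ Wt τ x := fun τ x => mul_nonneg (ind_nn _) (hgnn τ x)
  -- the two halves
  have hA : ∀ x, ∑ τ ∈ C E π, Wt τ x * ind (Tree.run τ.1 (I.To x) = true)
      = ∑ τ ∈ C E π, ind (Av Y E (Tree.qs τ.1 (I.To x)) τ) * gw srt Y (E ∪ Tree.qs τ.1 (I.To x))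
        * ind (Tree.run τ.1 (I.To x) = true) := by
    intro x
    exact h4 D srt Y Bool Bool (I.To x)
      (fun o => (I.Ti x).bind (fun i => Tree.leaf (isol (decide (x = I.x0)) o i)))
      (fun a => ind (a = true)) (2 * q) (2 * q) E π (dle_To hb x)
      (fun a => ((dle_Ti hb x).bind (fun u => Tree.DLe_leaf _ 0)).mono (by omega)) hY hsmall
  have hB : ∀ x, ∑ τ ∈ C E π, Wt τ x * ind (Tree.run τ.1 (I.Ti x) = true)
      = ∑ τ ∈ C E π, ind (Av Y E (Tree.qs τ.1 (I.Ti x)) τ) * gw srt Y (E ∪ Tree.qs τ.1 (I.Ti x))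
        * ind (Tree.run τ.1 (I.Ti x) = true) := by
    intro x
    have h5 := h4 D srt Y Bool Bool (I.Ti x)
      (fun i => (I.To x).bind (fun o => Tree.leaf (isol (decide (x = I.x0)) o i)))
      (fun a => ind (a = true)) (2 * q) (2 * q) E π (dle_Ti hb x)
      (fun a => ((dle_To hb x).bind (fun u => Tree.DLe_leaf _ 0)).mono (by omega)) hY hsmall
    rw [← h5]
    apply sum_congr rfl
    intro τ _
    have h6 := qs_chk' I τ.1 x
    unfold chk' at h6
    rw [h6]
  have hAB : ∑ x, ∑ τ ∈ C E π, Wt τ x * ind (Tree.run τ.1 (I.To x) = true)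
      = ∑ x, ∑ τ ∈ C E π, Wt τ x * ind (Tree.run τ.1 (I.Ti x) = true) := by
    rw [sum_congr rfl (fun x _ => hA x), sum_congr rfl (fun x _ => hB x), sum_comm,
      sum_comm (s := univ) (t := C E π)]
    apply sum_congr rfl
    intro τ _
    have h5 := h1 D X I τ.1 (fun V => ind (Av Y E V τ) * gw srt Y (E ∪ V))
    rw [sum_congr rfl (fun x _ => mul_comm _ (ind (Tree.run τ.1 (I.To x) = true))), h5]
    exact sum_congr rfl (fun x _ => mul_comm _ _)
  -- pointwise inequality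
  have hD : ∀ (x : X) (τ : Om srt),
      Wt τ x * ind (x = I.x0) - 2 * (Wt τ x * ind (Tree.run τ.1 (I.chk x) = true))
        ≤ Wt τ x * ind (Tree.run τ.1 (I.To x) = true)
          - Wt τ x * ind (Tree.run τ.1 (I.Ti x) = true) := by
    intro x τ
    have h5 := ind_ineq (decide (x = I.x0)) (Tree.run τ.1 (I.To x)) (Tree.run τ.1 (I.Ti x))
    rw [← run_chk] at h5
    have h6 : ind (decide (x = I.x0) = true) = ind (x = I.x0) := by
      by_cases hx : x = I.x0
      · rw [ind_pos hx, ind_pos (by simpa using hx)]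
      · rw [ind_neg hx, ind_neg (by simpa using hx)]
    rw [h6] at h5
    have h7 := mul_le_mul_of_nonneg_left h5 (hWnn τ x)
    nlinarith [h7]
  have hE : ∑ x, ∑ τ ∈ C E π, (Wt τ x * ind (x = I.x0)
      - 2 * (Wt τ x * ind (Tree.run τ.1 (I.chk x) = true))) ≤ 0 := by
    have h5 : ∑ x, ∑ τ ∈ C E π, (Wt τ x * ind (x = I.x0)
        - 2 * (Wt τ x * ind (Tree.run τ.1 (I.chk x) = true)))
        ≤ ∑ x, ∑ τ ∈ C E π, (Wt τ x * ind (Tree.run τ.1 (I.To x) = true)
          - Wt τ x * ind (Tree.run τ.1 (I.Ti x) = true)) :=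
      sum_le_sum (fun x _ => sum_le_sum (fun τ _ => hD x τ))
    refine h5.trans (le_of_eq ?_)
    simp only [sum_sub_distrib]
    rw [hAB, sub_self]
  have hF : ∑ x, ∑ τ ∈ C E π, Wt τ x * ind (x = I.x0) = gw srt Y E * (C E π).card := by
    rw [Finset.sum_eq_single I.x0]
    · have h5 := h3 D srt Y Bool (I.chk I.x0) (4 * q) E π (dle_chk hb _) hY hsmall4
      rw [← h5]
      apply sum_congr rfl
      intro τ _
      rw [ind_pos rfl, mul_one]
    · intro x _ hx
      apply sum_eq_zero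
      intro τ _
      rw [ind_neg hx, mul_zero]
    · intro hx
      exact absurd (mem_univ _) hx
  have hG : ∀ (x : X) (τ : Om srt), Wt τ x * ind (Tree.run τ.1 (I.chk x) = true)
      ≤ 2 * gw srt Y E * ind (Tree.run τ.1 (I.chk x) = true ∧
        Av Y E (Tree.qs τ.1 (I.chk x)) τ) := by
    intro x τ
    by_cases hr : Tree.run τ.1 (I.chk x) = true
    · by_cases ha : Av Y E (Tree.qs τ.1 (I.chk x)) τ
      · simp only [hWt]
        rw [ind_pos hr, ind_pos ha, ind_pos ⟨hr, ha⟩, one_mul, mul_one, mul_one]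
        exact hgle τ x
      · simp only [hWt]
        rw [ind_neg ha, zero_mul, zero_mul]
        exact mul_nonneg (by linarith) (ind_nn _)
    · rw [ind_neg hr, mul_zero]
      exact mul_nonneg (by linarith) (ind_nn _)
  have hH : ∑ x, ∑ τ ∈ C E π, Wt τ x * ind (Tree.run τ.1 (I.chk x) = true)
      ≤ 2 * gw srt Y E * ∑ x, ∑ τ ∈ C E π, ind (Tree.run τ.1 (I.chk x) = true ∧
        Av Y E (Tree.qs τ.1 (I.chk x)) τ) := by
    rw [mul_sum]
    apply sum_le_sum
    intro x _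
    rw [mul_sum]
    exact sum_le_sum (fun τ _ => hG x τ)
  have hI : gw srt Y E * (C E π).card
      ≤ 2 * ∑ x, ∑ τ ∈ C E π, Wt τ x * ind (Tree.run τ.1 (I.chk x) = true) := by
    have h5 : ∑ x, ∑ τ ∈ C E π, (Wt τ x * ind (x = I.x0)
        - 2 * (Wt τ x * ind (Tree.run τ.1 (I.chk x) = true)))
        = ∑ x, ∑ τ ∈ C E π, Wt τ x * ind (x = I.x0)
          - 2 * ∑ x, ∑ τ ∈ C E π, Wt τ x * ind (Tree.run τ.1 (I.chk x) = true) := by
      simp only [sum_sub_distrib, mul_sum]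
    rw [h5, hF] at hE
    linarith
  have hJ : gw srt Y E * (C E π).card
      ≤ gw srt Y E * (4 * ∑ x, ∑ τ ∈ C E π, ind (Tree.run τ.1 (I.chk x) = true ∧
        Av Y E (Tree.qs τ.1 (I.chk x)) τ)) := by
    nlinarith [hI, hH]
  exact le_of_mul_le_mul_left hJ hgE

end Pool.Agent.H1.EOL
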